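import Mathlib

set_option autoImplicit false

/-!
A countable family of sets of reals, each dense, such that no member embeds, even on an interval,
into the union of the other members.
-/

namespace Pool.Agent.Lib.Pe29ee7

open Cardinal Set

/-- Transfinite choice: given continuum many tasks, each with a set of size continuum and a map
injective on this set, one can choose points so that no point and no image of a point is hit
by another point. -/
theorem exists_choice {ι : Type} [LinearOrder ι] [WellFoundedLT ι]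
    (hι : ∀ i : ι, #(Iio i) < 𝔠) (D : ι → Set ℝ) (Φ : ι → ℝ → ℝ)
    (hD : ∀ i, #(D i) = 𝔠) (hΦ : ∀ i, InjOn (Φ i) (D i)) :
    ∃ x : ι → ℝ, (∀ i, x i ∈ D i) ∧ Function.Injective x ∧
      ∀ i j, i ≠ j → Φ i (x i) ≠ x j := by
  classical
  -- the step
  have step : ∀ (i : ι) (f : ∀ j : ι, j < i → ℝ),
      ∃ y ∈ D i, ∀ (j : ι) (hj : j < i), y ≠ f j hj ∧ y ≠ Φ j (f j hj) ∧ Φ i y ≠ f j hj := by
    intro i f
    by_contra hcon
    push Not at hcon
    -- D i is covered by three families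
    let A : Set ℝ := range (fun j : Iio i => f j.1 j.2)
    let B : Set ℝ := range (fun j : Iio i => Φ j.1 (f j.1 j.2))
    let C : Set ℝ := {y ∈ D i | ∃ j : Iio i, Φ i y = f j.1 j.2}
    have hsub : D i ⊆ A ∪ B ∪ C := by
      intro y hy
      obtain ⟨j, hj, h⟩ := hcon y hy
      by_cases h1 : y = f j hj
      · exact Or.inl (Or.inl ⟨⟨j, hj⟩, h1.symm⟩)
      · by_cases h2 : y = Φ j (f j hj)
        · exact Or.inl (Or.inr ⟨⟨j, hj⟩, h2.symm⟩)
        · exact Or.inr ⟨hy, ⟨j, hj⟩, h h1 h2⟩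
    have hA : #A < 𝔠 := lt_of_le_of_lt mk_range_le (hι i)
    have hB : #B < 𝔠 := lt_of_le_of_lt mk_range_le (hι i)
    have hC : #C < 𝔠 := by
      refine lt_of_le_of_lt ?_ (hι i)
      have : ∀ y : C, ∃ j : Iio i, Φ i y.1 = f j.1 j.2 := fun y => y.2.2
      choose g hg using this
      refine mk_le_of_injective (f := g) ?_
      intro y z hyz
      have h1 := hg y
      have h2 := hg z
      rw [hyz, ← h2] at h1
      exact Subtype.ext (hΦ i y.2.1 z.2.1 h1)
    have hAB : #(A ∪ B : Set ℝ) < 𝔠 :=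
      lt_of_le_of_lt (mk_union_le _ _) (add_lt_of_lt aleph0_le_continuum hA hB)
    have hABC : #(A ∪ B ∪ C : Set ℝ) < 𝔠 :=
      lt_of_le_of_lt (mk_union_le _ _) (add_lt_of_lt aleph0_le_continuum hAB hC)
    have := mk_le_mk_of_subset hsub
    rw [hD i] at this
    exact absurd hABC (not_lt.mpr this)
  choose F hFD hF using step
  let wf : WellFounded (fun a b : ι => a < b) := wellFounded_lt
  let x : ι → ℝ := wf.fix F
  have hx : ∀ i, x i = F i (fun j _ => x j) := fun i => wf.fix_eq F i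
  have key : ∀ i j, j < i → x i ≠ x j ∧ x i ≠ Φ j (x j) ∧ Φ i (x i) ≠ x j := by
    intro i j hij
    have := hF i (fun j _ => x j) j hij
    rw [← hx i] at this
    exact this
  refine ⟨x, fun i => ?_, ?_, ?_⟩
  · rw [hx i]; exact hFD i _
  · intro i j hij
    rcases lt_trichotomy i j with h | h | h
    · exact absurd hij.symm (key j i h).1
    · exact h
    · exact absurd hij (key i j h).1
  · intro i j hij
    rcases lt_or_gt_of_ne hij with h | h
    · exact fun e => (key j i h).2.1 e.symm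
    · exact (key i j h).2.2

/-- The countable code used to describe monotone maps. -/
noncomputable def codeMap (c : ℚ × ℚ → ℝ × ℝ) (p : ℝ) (x : ℝ) : ℝ :=
  sSup {t : ℝ | ∃ k : ℚ × ℚ, p < (c k).1 ∧ (c k).1 < x ∧ t = (c k).2}

/-- The type of tasks: a code, two reals, an index and a further real. -/
abbrev Task : Type := (ℚ × ℚ → ℝ × ℝ) × ℝ × ℝ × (ℕ × ℕ) × ℝ

theorem mk_task : #Task = 𝔠 := by
  have h1 : #(ℚ × ℚ → ℝ × ℝ) = 𝔠 := by
    rw [← power_def]
    have : #(ℝ × ℝ) = 𝔠 := by simp [mk_prod, mk_real]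
    rw [this]
    have : #(ℚ × ℚ) = ℵ₀ := by simp
    rw [this]
    exact continuum_power_aleph0
  simp only [mk_prod, lift_id, h1, mk_real]
  simp

theorem exists_rigid_family :
    ∃ X : ℕ × ℕ → Set ℝ,
      (∀ q (a b : ℝ), a < b → (X q ∩ Ioo a b).Nonempty) ∧
      (∀ q (a b : ℝ), a < b → ∀ F : ℝ → ℝ, StrictMonoOn F (X q ∩ Ioo a b) →
        ∃ x ∈ X q ∩ Ioo a b, ∀ q', q' ≠ q → F x ∉ X q') := by
  classical
  -- index the tasks by the initial ordinal of the continuum
  let ι : Type := (𝔠 : Cardinal.{0}).ord.ToType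
  have hι : ∀ i : ι, #(Iio i) < 𝔠 := by
    intro i
    have h := Cardinal.mk_Iio_lt i (by simp [ι])
    simpa [ι] using h
  have hcard : #ι = #Task := by
    rw [mk_task]; simp [ι]
  obtain ⟨e⟩ := Cardinal.eq.mp hcard
  -- the domain and map of a task
  let D : ι → Set ℝ := fun i =>
    if (e i).2.1 < (e i).2.2.1 then Ioo (e i).2.1 (e i).2.2.1 else univ
  let Φ : ι → ℝ → ℝ := fun i =>
    if InjOn (codeMap (e i).1 (e i).2.1) (D i) then codeMap (e i).1 (e i).2.1 else id
  have hD : ∀ i, #(D i) = 𝔠 := by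
    intro i
    by_cases h : (e i).2.1 < (e i).2.2.1
    · simp only [D, if_pos h]
      exact mk_Ioo_real h
    · simp only [D, if_neg h]
      simp [mk_real]
  have hΦ : ∀ i, InjOn (Φ i) (D i) := by
    intro i
    by_cases h : InjOn (codeMap (e i).1 (e i).2.1) (D i)
    · simp only [Φ, if_pos h]; exact h
    · simp only [Φ, if_neg h]; exact injOn_id _
  obtain ⟨x, hxD, hxinj, hxne⟩ := exists_choice hι D Φ hD hΦ
  let X : ℕ × ℕ → Set ℝ := fun q => {y | ∃ i, (e i).2.2.2.1 = q ∧ x i = y}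
  have hdense : ∀ q (a b : ℝ), a < b → (X q ∩ Ioo a b).Nonempty := by
    intro q a b hab
    let t : Task := (fun _ => (0, 0), a, b, q, 0)
    let i := e.symm t
    have hi : e i = t := e.apply_symm_apply t
    refine ⟨x i, ⟨i, by rw [hi], rfl⟩, ?_⟩
    have := hxD i
    simp only [D, hi, t, if_pos hab] at this
    exact this
  refine ⟨X, hdense, ?_⟩
  intro q a b hab F hF
  by_contra hcon
  push Not at hcon
  -- choose p < p' in X q inside (a,b)
  obtain ⟨p, hpX, hp⟩ := hdense q a b hab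
  obtain ⟨p', hpX', hp'⟩ := hdense q p b hp.2
  -- countable dense subset
  have hz : ∀ k : ℚ × ℚ, ∃ z : ℝ, (((k.1 : ℝ) < k.2) → z ∈ X q ∩ Ioo (k.1 : ℝ) k.2) := by
    intro k
    by_cases h : (k.1 : ℝ) < k.2
    · obtain ⟨z, hz⟩ := hdense q _ _ h
      exact ⟨z, fun _ => hz⟩
    · exact ⟨0, fun h' => absurd h' h⟩
  choose z hz using hz
  -- discard the points outside (p,p') by sending them to p
  let c : ℚ × ℚ → ℝ × ℝ := fun k =>
    if z k ∈ X q ∩ Ioo p p' then (z k, F (z k)) else (p, 0)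
  have hsub : X q ∩ Ioo p p' ⊆ X q ∩ Ioo a b := fun y hy =>
    ⟨hy.1, lt_trans hp.1 hy.2.1, lt_trans hy.2.2 hp'.2⟩
  have hp'mem : p' ∈ X q ∩ Ioo a b := ⟨hpX', lt_trans hp.1 hp'.1, hp'.2⟩
  have hpmem : p ∈ X q ∩ Ioo a b := ⟨hpX, hp⟩
  -- description of the set over which the supremum is taken
  have hset : ∀ y t, (∃ k : ℚ × ℚ, p < (c k).1 ∧ (c k).1 < y ∧ t = (c k).2) ↔
      ∃ k : ℚ × ℚ, z k ∈ X q ∩ Ioo p p' ∧ z k < y ∧ t = F (z k) := by
    intro y t
    constructor
    · rintro ⟨k, h1, h2, h3⟩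
      by_cases h : z k ∈ X q ∩ Ioo p p'
      · simp only [c, if_pos h] at h1 h2 h3
        exact ⟨k, h, h2, h3⟩
      · simp only [c, if_neg h] at h1
        exact absurd h1 (lt_irrefl _)
    · rintro ⟨k, h1, h2, h3⟩
      refine ⟨k, ?_⟩
      simp only [c, if_pos h1]
      exact ⟨h1.2.1, h2, h3⟩
  -- density of z
  have hzd : ∀ u v : ℝ, p ≤ u → u < v → v ≤ p' → ∃ k, z k ∈ X q ∩ Ioo p p' ∧ u < z k ∧ z k < v := by
    intro u v hu huv hv
    obtain ⟨r, hr1, hr2⟩ := exists_rat_btwn huv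
    obtain ⟨s, hs1, hs2⟩ := exists_rat_btwn hr2
    have := hz (r, s) hs1
    refine ⟨(r, s), ⟨this.1, ?_, ?_⟩, ?_, ?_⟩
    · exact lt_of_le_of_lt hu (lt_trans hr1 this.2.1)
    · exact lt_of_lt_of_le (lt_trans this.2.2 hs2) hv
    · exact lt_trans hr1 this.2.1
    · exact lt_trans this.2.2 hs2
  let Ψ : ℝ → ℝ := codeMap c p
  have hbdd : ∀ y, BddAbove {t : ℝ | ∃ k : ℚ × ℚ, p < (c k).1 ∧ (c k).1 < y ∧ t = (c k).2} := by
    intro y
    refine ⟨F p', ?_⟩
    rintro t ht
    obtain ⟨k, h1, h2, h3⟩ := (hset y t).mp ht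
    rw [h3]
    exact (hF (hsub h1) hp'mem h1.2.2).le
  -- lower and upper bounds on Ψ
  have hΨge : ∀ y k, z k ∈ X q ∩ Ioo p p' → z k < y → F (z k) ≤ Ψ y := by
    intro y k h1 h2
    exact le_csSup (hbdd y) ((hset y _).mpr ⟨k, h1, h2, rfl⟩)
  have hΨle : ∀ y w, y ∈ Ioo p p' → w ∈ X q ∩ Ioo a b → y ≤ w → Ψ y ≤ F w := by
    intro y w hy hw hyw
    refine csSup_le ?_ ?_
    · obtain ⟨k, h1, h2, h3⟩ := hzd p y le_rfl hy.1 hy.2.le
      exact ⟨_, (hset y _).mpr ⟨k, h1, h3, rfl⟩⟩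
    · intro t ht
      obtain ⟨k, h1, h2, h3⟩ := (hset y t).mp ht
      rw [h3]
      exact (hF (hsub h1) hw (lt_of_lt_of_le h2 hyw)).le
  have hΨmono : StrictMonoOn Ψ (Ioo p p') := by
    intro u hu v hv huv
    obtain ⟨k, h1, h2, h3⟩ := hzd u v hu.1.le huv hv.2.le
    obtain ⟨k', h1', h2', h3'⟩ := hzd (z k) v h1.2.1.le h3 hv.2.le
    calc Ψ u ≤ F (z k) := hΨle u (z k) hu (hsub h1) h2.le
      _ < F (z k') := hF (hsub h1) (hsub h1') h2'
      _ ≤ Ψ v := hΨge v k' h1' h3'
  -- bad points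
  let Bad : Set ℝ := {y | y ∈ X q ∩ Ioo p p' ∧ Ψ y < F y}
  have hBad : Bad.Countable := by
    refine Set.PairwiseDisjoint.countable_of_isOpen (s := fun y => Ioo (Ψ y) (F y)) ?_
      (fun y _ => isOpen_Ioo) (fun y hy => nonempty_Ioo.mpr hy.2)
    have aux : ∀ u v, u ∈ Bad → v ∈ Bad → u < v → Disjoint (Ioo (Ψ u) (F u)) (Ioo (Ψ v) (F v)) := by
      intro u v hu hv huv
      obtain ⟨k, h1, h2, h3⟩ := hzd u v hu.1.2.1.le huv hv.1.2.2.le
      have h4 : F u < Ψ v :=
        lt_of_lt_of_le (hF (hsub hu.1) (hsub h1) h2) (hΨge v k h1 h3)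
      rw [Set.disjoint_left]
      intro t ht ht'
      exact absurd (lt_trans ht.2 (lt_trans h4 ht'.1)) (lt_irrefl _)
    intro u hu v hv huv
    rcases lt_or_gt_of_ne huv with h | h
    · exact aux u v hu hv h
    · exact (aux v u hv hu h).symm
  -- the tasks for F
  let T : ℝ → Task := fun r => (c, p, p', q, r)
  let idx : ℝ → ι := fun r => e.symm (T r)
  have hidx : ∀ r, e (idx r) = T r := fun r => e.apply_symm_apply _
  have hDr : ∀ r, D (idx r) = Ioo p p' := by
    intro r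
    simp only [D, hidx, T, if_pos hp'.1]
  have hΦr : ∀ r, Φ (idx r) = Ψ := by
    intro r
    have h : InjOn (codeMap (e (idx r)).1 (e (idx r)).2.1) (D (idx r)) := by
      rw [hDr, hidx]
      exact hΨmono.injOn
    simp only [Φ, if_pos h]
    rw [hidx]
  have hxr : ∀ r, x (idx r) ∈ Bad := by
    intro r
    have h1 : x (idx r) ∈ Ioo p p' := by
      have := hxD (idx r)
      rwa [hDr] at this
    have h2 : x (idx r) ∈ X q := ⟨idx r, by rw [hidx], rfl⟩
    refine ⟨⟨h2, h1⟩, lt_of_le_of_ne (hΨle _ _ h1 (hsub ⟨h2, h1⟩) le_rfl) ?_⟩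
    intro heq
    obtain ⟨q', hq', hmem⟩ := hcon _ (hsub ⟨h2, h1⟩)
    obtain ⟨j, hj1, hj2⟩ := hmem
    have hne : idx r ≠ j := by
      intro h
      apply hq'
      rw [← hj1, ← h, hidx]
    have := hxne (idx r) j hne
    rw [hΦr, heq] at this
    exact this hj2.symm
  have hinj : Function.Injective (fun r => x (idx r)) := by
    intro r s hrs
    have h1 : idx r = idx s := hxinj hrs
    have h2 : T r = T s := by rw [← hidx, ← hidx, h1]
    simpa [T] using h2
  have hcount : (Set.univ : Set ℝ).Countable := by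
    have : (Set.range (fun r => x (idx r))).Countable :=
      hBad.mono (by rintro _ ⟨r, rfl⟩; exact hxr r)
    have h2 := this.preimage_of_injOn (f := fun r => x (idx r)) hinj.injOn
    exact h2.mono (fun r _ => Set.mem_range_self (f := fun r => x (idx r)) r)
  exact Cardinal.not_countable_real hcount

end Pool.Agent.Lib.Pe29ee7
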