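import Mathlib
import Pool.Agent.Lib.Pe29ee7.Rigid

set_option autoImplicit false

namespace Pool.Agent.Lib.Pe29ee7

open Set

/-- Truncation of `f` at the integer `z`: keep the values at `i ≤ z`. -/
def trunc (z : ℤ) (f : ℕ → ℕ) : ℕ → ℕ := fun i => if (i : ℤ) ≤ z then f i else 0

theorem trunc_trunc (z : ℤ) (f : ℕ → ℕ) : trunc z (trunc z f) = trunc z f := by
  funext i
  unfold trunc
  by_cases h : (i : ℤ) ≤ z <;> simp [h]

theorem trunc_apply {z : ℤ} {f : ℕ → ℕ} {i : ℕ} (h : (i : ℤ) ≤ z) : trunc z f i = f i := by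
  simp [trunc, h]

/-- The set of reals attached to the level `z` and the sequence `s`. -/
def W (X : ℕ × ℕ → Set ℝ) (z : ℤ) (s : ℕ → ℕ) : Set ℝ :=
  {x | ∃ n k : ℕ, x ∈ X (n, k) ∧ ((z < 0 ∧ (n : ℤ) < -z ∧ (k : ℤ) < -z) ∨ (z = n ∧ k ≤ s n))}

/-- The tree. -/
structure TreeT (X : ℕ × ℕ → Set ℝ) where
  z : ℤ
  s : ℕ → ℕ
  x : ℝ
  hs : trunc z s = s
  hx : x ∈ W X z s

variable {X : ℕ × ℕ → Set ℝ}

@[ext] theorem TreeT.ext' {p q : TreeT X} (h1 : p.z = q.z) (h2 : p.s = q.s) (h3 : p.x = q.x) :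
    p = q := by
  cases p; cases q; simp only at h1 h2 h3; subst h1 h2 h3; rfl

/-- Agreement up to the level `z`. -/
def agree (z : ℤ) (s t : ℕ → ℕ) : Prop := ∀ i : ℕ, (i : ℤ) ≤ z → s i = t i

theorem TreeT.s_eq_of_agree {p q : TreeT X} (h1 : p.z = q.z) (h2 : agree p.z p.s q.s) :
    p.s = q.s := by
  rw [← p.hs, ← q.hs, ← h1]
  funext i
  unfold trunc
  by_cases h : (i : ℤ) ≤ p.z
  · simp [h, h2 i h]
  · simp [h]

/-- The order of the tree. -/
def TreeT.le (p q : TreeT X) : Prop :=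
  agree p.z p.s q.s ∧ (p.z < q.z ∨ (p.z = q.z ∧ p.x ≤ q.x))

instance : PartialOrder (TreeT X) where
  le := TreeT.le
  le_refl p := ⟨fun _ _ => rfl, Or.inr ⟨rfl, le_rfl⟩⟩
  le_trans p q r hpq hqr := by
    obtain ⟨h1, h2⟩ := hpq
    obtain ⟨h3, h4⟩ := hqr
    have hz : p.z ≤ q.z := by rcases h2 with h | h <;> omega
    refine ⟨fun i hi => (h1 i hi).trans (h3 i (hi.trans hz)), ?_⟩
    rcases h2 with h | h <;> rcases h4 with h' | h'
    · exact Or.inl (h.trans h')
    · left; omega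
    · left; omega
    · exact Or.inr ⟨h.1.trans h'.1, h.2.trans h'.2⟩
  le_antisymm p q hpq hqp := by
    obtain ⟨h1, h2⟩ := hpq
    obtain ⟨h3, h4⟩ := hqp
    have hz : p.z = q.z := by rcases h2 with h | h <;> rcases h4 with h' | h' <;> omega
    have hs := TreeT.s_eq_of_agree hz h1
    refine TreeT.ext' hz hs ?_
    rcases h2 with h | h <;> rcases h4 with h' | h'
    · omega
    · omega
    · omega
    · exact le_antisymm h.2 h'.2

theorem le_def {p q : TreeT X} :
    p ≤ q ↔ agree p.z p.s q.s ∧ (p.z < q.z ∨ (p.z = q.z ∧ p.x ≤ q.x)) := Iff.rfl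

theorem z_le_of_le {p q : TreeT X} (h : p ≤ q) : p.z ≤ q.z := by
  rcases h.2 with h | h <;> omega

/-- Two nodes that agree up to the smaller level are comparable. -/
theorem comparable {p q : TreeT X} (h : agree (min p.z q.z) p.s q.s) : p ≤ q ∨ q ≤ p := by
  rcases lt_trichotomy p.z q.z with hz | hz | hz
  · left
    rw [min_eq_left hz.le] at h
    exact ⟨h, Or.inl hz⟩
  · rw [← hz, min_self] at h
    rcases le_total p.x q.x with hx | hx
    · exact Or.inl ⟨h, Or.inr ⟨hz, hx⟩⟩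
    · exact Or.inr ⟨fun i hi => (h i (hz ▸ hi)).symm, Or.inr ⟨hz.symm, hx⟩⟩
  · right
    rw [min_eq_right hz.le] at h
    exact ⟨fun i hi => (h i hi).symm, Or.inl hz⟩

theorem agree_of_comparable {p q : TreeT X} (h : p ≤ q ∨ q ≤ p) :
    agree (min p.z q.z) p.s q.s := by
  rcases h with h | h
  · rw [min_eq_left (z_le_of_le h)]; exact h.1
  · rw [min_eq_right (z_le_of_le h)]
    exact fun i hi => (h.1 i hi).symm

theorem isTree (r : TreeT X) : IsChain (· ≤ ·) {y : TreeT X | y < r} := by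
  intro p hp q hq _
  have hp' : p ≤ r := le_of_lt hp
  have hq' : q ≤ r := le_of_lt hq
  apply comparable
  intro i hi
  rw [hp'.1 i (hi.trans (min_le_left _ _)), hq'.1 i (hi.trans (min_le_right _ _))]

/-- The tree is a countable union of chains. -/
theorem union_of_chains : ∃ f : ℕ → Set (TreeT X),
    (∀ n, IsChain (· ≤ ·) (f n)) ∧ (⋃ n, f n) = Set.univ := by
  classical
  let code : TreeT X → ℤ × List ℕ := fun p => (p.z, (List.range (p.z.toNat + 1)).map p.s)
  have hcode : ∀ p q : TreeT X, code p = code q → p.z = q.z ∧ p.s = q.s := by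
    intro p q h
    simp only [code, Prod.mk.injEq] at h
    obtain ⟨h1, h2⟩ := h
    refine ⟨h1, TreeT.s_eq_of_agree h1 ?_⟩
    intro i hi
    rw [← h1] at h2
    have := List.map_inj_left.mp h2 i (List.mem_range.mpr (by omega))
    exact this
  let _ : Encodable (ℤ × List ℕ) := inferInstance
  refine ⟨fun n => {p | Encodable.encode (code p) = n}, ?_, ?_⟩
  · intro n p hp q hq _
    have h : code p = code q := Encodable.encode_injective (hp.trans hq.symm)
    obtain ⟨h1, h2⟩ := hcode p q h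
    apply comparable
    intro i _
    rw [h2]
  · ext p
    simp

/-- The branch attached to `f`. -/
def branch (X : ℕ × ℕ → Set ℝ) (f : ℕ → ℕ) : Set (TreeT X) := {p | agree p.z p.s f}

theorem branch_chain (f : ℕ → ℕ) : IsChain (· ≤ ·) (branch X f) := by
  intro p hp q hq _
  apply comparable
  intro i hi
  rw [hp i (hi.trans (min_le_left _ _)), hq i (hi.trans (min_le_right _ _))]

/-- Every chain is contained in a branch. -/
theorem chain_subset_branch {c : Set (TreeT X)} (hc : IsChain (· ≤ ·) c) :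
    ∃ f : ℕ → ℕ, c ⊆ branch X f := by
  classical
  refine ⟨fun i => if h : ∃ p ∈ c, (i : ℤ) ≤ p.z then (Classical.choose h).s i else 0, ?_⟩
  intro p hp i hi
  have h : ∃ p ∈ c, (i : ℤ) ≤ p.z := ⟨p, hp, hi⟩
  simp only [dif_pos h]
  have h1 := Classical.choose_spec h
  have h2 : p ≤ Classical.choose h ∨ Classical.choose h ≤ p := by
    by_cases he : p = Classical.choose h
    · left; exact he.le
    · exact hc hp h1.1 he
  exact agree_of_comparable h2 i (le_min hi h1.2)

/-- Point of the branch of `f` at level `n ≥ 0` with real coordinate `x ∈ X (n,k)`. -/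
def pt (f : ℕ → ℕ) (n k : ℕ) (hk : k ≤ f n) (x : ℝ) (hx : x ∈ X (n, k)) : TreeT X where
  z := n
  s := trunc n f
  x := x
  hs := trunc_trunc _ _
  hx := ⟨n, k, hx, Or.inr ⟨rfl, by rwa [trunc_apply le_rfl]⟩⟩

theorem pt_mem (f : ℕ → ℕ) (n k : ℕ) (hk : k ≤ f n) (x : ℝ) (hx : x ∈ X (n, k)) :
    pt f n k hk x hx ∈ branch X f := fun _ hi => trunc_apply hi

theorem branch_maxChain (hX : ∀ q, (X q).Nonempty) (f : ℕ → ℕ) :
    IsMaxChain (· ≤ ·) (branch X f) := by
  refine ⟨branch_chain f, ?_⟩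
  intro c hc hfc
  refine subset_antisymm hfc ?_
  obtain ⟨g, hg⟩ := chain_subset_branch hc
  have hfg : f = g := by
    funext n
    obtain ⟨x, hx⟩ := hX (n, 0)
    have h1 := hg (hfc (pt_mem f n 0 (Nat.zero_le _) x hx)) n le_rfl
    rw [← h1]
    exact (trunc_apply (z := (n : ℤ)) le_rfl).symm
  rw [hfg]; exact hg

end Pool.Agent.Lib.Pe29ee7
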