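import Mathlib
import Pool.Agent.Lib.Pe29ee7.Tree

set_option autoImplicit false

namespace Pool.Agent.Lib.Pe29ee7

open Set

variable {X : ℕ × ℕ → Set ℝ}

/-- The order on a branch. -/
theorem branch_le_iff {f : ℕ → ℕ} {p q : TreeT X} (hp : p ∈ branch X f) (hq : q ∈ branch X f) :
    p ≤ q ↔ (p.z < q.z ∨ (p.z = q.z ∧ p.x ≤ q.x)) := by
  constructor
  · intro h; exact h.2
  · intro h
    have hz : p.z ≤ q.z := by rcases h with h | h <;> omega
    exact ⟨fun i hi => (hp i hi).trans (hq i (hi.trans hz)).symm, h⟩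

/-- If `f ≤ g` from `m` on then the branch of `f` embeds into the branch of `g`. -/
theorem branch_embed {f g : ℕ → ℕ} {m : ℕ} (h : ∀ n, m ≤ n → f n ≤ g n) :
    Nonempty (↥(branch X f) ↪o ↥(branch X g)) := by
  classical
  let N : ℕ := 2 * m + 1 + ∑ i ∈ Finset.range m, f i
  have hN : ∀ i, i < m → f i + 2 * m + 1 ≤ N := by
    intro i hi
    have : f i ≤ ∑ i ∈ Finset.range m, f i :=
      Finset.single_le_sum (f := f) (fun _ _ => Nat.zero_le _) (Finset.mem_range.mpr hi)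
    simp only [N]; omega
  have hNm : 2 * m + 1 ≤ N := by simp only [N]; omega
  -- the new level and sequence
  let Z : TreeT X → ℤ := fun p => if (m : ℤ) ≤ p.z then p.z else p.z - N
  have hmem : ∀ p ∈ branch X f, p.x ∈ W X (Z p) (trunc (Z p) g) := by
    intro p hp
    obtain ⟨n, k, hx, hcase⟩ := p.hx
    by_cases hz : (m : ℤ) ≤ p.z
    · simp only [Z, if_pos hz]
      rcases hcase with hc | ⟨h1, h2⟩
      · omega
      · refine ⟨n, k, hx, Or.inr ⟨h1, ?_⟩⟩
        rw [trunc_apply (by omega)]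
        have h3 : p.s n = f n := hp n (by omega)
        rw [h3] at h2
        exact h2.trans (h n (by omega))
    · simp only [Z, if_neg hz]
      refine ⟨n, k, hx, Or.inl ?_⟩
      rcases hcase with hc | ⟨h1, h2⟩
      · omega
      · have h3 : p.s n = f n := hp n (by omega)
        rw [h3] at h2
        have h4 := hN n (by omega)
        omega
  let φ : ↥(branch X f) → ↥(branch X g) := fun p =>
    ⟨⟨Z p.1, trunc (Z p.1) g, p.1.x, trunc_trunc _ _, hmem p.1 p.2⟩, fun i hi => trunc_apply hi⟩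
  refine ⟨OrderEmbedding.ofMapLEIff φ ?_⟩
  intro p q
  have h1 : φ p ≤ φ q ↔ ((φ p).1.z < (φ q).1.z ∨ ((φ p).1.z = (φ q).1.z ∧ (φ p).1.x ≤ (φ q).1.x)) :=
    branch_le_iff (φ p).2 (φ q).2
  have h2 : p ≤ q ↔ (p.1.z < q.1.z ∨ (p.1.z = q.1.z ∧ p.1.x ≤ q.1.x)) :=
    branch_le_iff p.2 q.2
  rw [h1, h2]
  change (Z p.1 < Z q.1 ∨ (Z p.1 = Z q.1 ∧ p.1.x ≤ q.1.x)) ↔ _
  have e1 : Z p.1 < Z q.1 ↔ p.1.z < q.1.z := by
    simp only [Z]
    split_ifs <;> omega
  have e2 : Z p.1 = Z q.1 ↔ p.1.z = q.1.z := by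
    simp only [Z]
    split_ifs <;> omega
  rw [e1, e2]

/-- Key lemma: if `g n > f n` and the branch of `g` embeds into the branch of `f`, then some point
of level `n` in the branch of `g` goes to a level below `-n`. -/
theorem level_drop
    (hX1 : ∀ q (a b : ℝ), a < b → (X q ∩ Ioo a b).Nonempty)
    (hX2 : ∀ q (a b : ℝ), a < b → ∀ F : ℝ → ℝ, StrictMonoOn F (X q ∩ Ioo a b) →
        ∃ x ∈ X q ∩ Ioo a b, ∀ q', q' ≠ q → F x ∉ X q')
    {f g : ℕ → ℕ} (φ : ↥(branch X g) ↪o ↥(branch X f)) {n : ℕ} (hn : f n < g n) :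
    ∃ p : ↥(branch X g), p.1.z = n ∧ (φ p).1.z < -(n : ℤ) := by
  classical
  -- points of the block
  let P : ∀ x : ℝ, x ∈ X (n, g n) → ↥(branch X g) := fun x hx =>
    ⟨pt g n (g n) le_rfl x hx, pt_mem g n (g n) le_rfl x hx⟩
  have hP : ∀ x y (hx : x ∈ X (n, g n)) (hy : y ∈ X (n, g n)), x < y → P x hx < P y hy := by
    intro x y hx hy hxy
    refine lt_of_le_not_ge ?_ ?_
    · exact (branch_le_iff (P x hx).2 (P y hy).2).mpr (Or.inr ⟨rfl, hxy.le⟩)
    · intro h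
      have := (branch_le_iff (P y hy).2 (P x hx).2).mp h
      rcases this with h' | h'
      · exact absurd h' (lt_irrefl _)
      · exact absurd h'.2 (not_le.mpr hxy)
  -- level of the image
  let ℓ : ∀ x : ℝ, x ∈ X (n, g n) → ℤ := fun x hx => (φ (P x hx)).1.z
  have hℓ : ∀ x y (hx : x ∈ X (n, g n)) (hy : y ∈ X (n, g n)), x < y → ℓ x hx ≤ ℓ y hy := by
    intro x y hx hy hxy
    exact z_le_of_le (φ.monotone (hP x y hx hy hxy).le)
  -- choose a pair with minimal difference of levels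
  let S : Set ℕ := {d | ∃ x y, ∃ hx : x ∈ X (n, g n), ∃ hy : y ∈ X (n, g n),
    x < y ∧ ((ℓ y hy - ℓ x hx).toNat = d)}
  have hS : S.Nonempty := by
    obtain ⟨x, hx, hx'⟩ := hX1 (n, g n) 0 1 one_pos
    obtain ⟨y, hy, hy'⟩ := hX1 (n, g n) 1 2 one_lt_two
    exact ⟨_, x, y, hx, hy, lt_trans hx'.2 hy'.1, rfl⟩
  obtain ⟨x, y, hx, hy, hxy, hd⟩ := Nat.sInf_mem hS
  have hmin : ∀ u v (hu : u ∈ X (n, g n)) (hv : v ∈ X (n, g n)), u < v →
      (ℓ y hy - ℓ x hx).toNat ≤ (ℓ v hv - ℓ u hu).toNat := by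
    intro u v hu hv huv
    rw [hd]
    exact Nat.sInf_le ⟨u, v, hu, hv, huv, rfl⟩
  -- the level is constant on (x,y)
  have hconst : ∀ u (hu : u ∈ X (n, g n)), u ∈ Ioo x y → ℓ u hu = ℓ y hy := by
    intro u hu huxy
    have h1 := hℓ x u hx hu huxy.1
    have h2 := hℓ u y hu hy huxy.2
    have h3 := hmin x u hx hu huxy.1
    have h4 := hℓ x y hx hy hxy
    omega
  -- the real coordinate of the image
  let F : ℝ → ℝ := fun u => if hu : u ∈ X (n, g n) then (φ (P u hu)).1.x else 0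
  have hF : StrictMonoOn F (X (n, g n) ∩ Ioo x y) := by
    intro u hu v hv huv
    simp only [F, dif_pos hu.1, dif_pos hv.1]
    have h1 : φ (P u hu.1) < φ (P v hv.1) := φ.strictMono (hP u v hu.1 hv.1 huv)
    have h2 := hconst u hu.1 hu.2
    have h3 := hconst v hv.1 hv.2
    by_contra hcon
    push Not at hcon
    have h4 : φ (P v hv.1) ≤ φ (P u hu.1) :=
      (branch_le_iff (φ (P v hv.1)).2 (φ (P u hu.1)).2).mpr (Or.inr ⟨h3.trans h2.symm, hcon⟩)
    exact absurd h4 h1.not_ge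
  obtain ⟨u, hu, hun⟩ := hX2 (n, g n) x y hxy F hF
  refine ⟨P u hu.1, rfl, ?_⟩
  simp only [F, dif_pos hu.1] at hun
  obtain ⟨n', k', hx', hcase⟩ := (φ (P u hu.1)).1.hx
  have heq : (n', k') = (n, g n) := by
    by_contra hne
    exact hun _ hne hx'
  simp only [Prod.mk.injEq] at heq
  obtain ⟨rfl, rfl⟩ := heq
  rcases hcase with hc | ⟨h1, h2⟩
  · omega
  · exfalso
    have h3 : (φ (P u hu.1)).1.s n' = f n' := (φ (P u hu.1)).2 n' (by omega)
    rw [h3] at h2
    omega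

/-- If `g n > f n` for all large `n` then the branch of `g` does not embed into the branch
of `f`. -/
theorem branch_not_embed
    (hX1 : ∀ q (a b : ℝ), a < b → (X q ∩ Ioo a b).Nonempty)
    (hX2 : ∀ q (a b : ℝ), a < b → ∀ F : ℝ → ℝ, StrictMonoOn F (X q ∩ Ioo a b) →
        ∃ x ∈ X q ∩ Ioo a b, ∀ q', q' ≠ q → F x ∉ X q')
    {f g : ℕ → ℕ} {m : ℕ} (h : ∀ n, m ≤ n → f n < g n) :
    IsEmpty (↥(branch X g) ↪o ↥(branch X f)) := by
  constructor
  intro φ
  obtain ⟨p, hp1, hp2⟩ := level_drop hX1 hX2 φ (h m le_rfl)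
  let n : ℕ := m + 1 + ((φ p).1.z).natAbs
  obtain ⟨q, hq1, hq2⟩ := level_drop hX1 hX2 φ (h n (by simp only [n]; omega))
  have h1 : p ≤ q := (branch_le_iff p.2 q.2).mpr (Or.inl (by rw [hp1, hq1]; simp only [n]; omega))
  have h2 := z_le_of_le (φ.monotone h1)
  have h3 : (φ p).1.z ≤ (φ q).1.z := h2
  have h4 : (n : ℤ) = m + 1 + |(φ p).1.z| := by simp [n]
  have h5 := neg_abs_le (φ p).1.z
  omega

/-- A countable set of functions is eventually strictly dominated. -/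
theorem exists_dominating (s : Set (ℕ → ℕ)) (hs : s.Countable) :
    ∃ g : ℕ → ℕ, ∀ f ∈ s, ∃ m, ∀ n, m ≤ n → f n < g n := by
  rcases s.eq_empty_or_nonempty with rfl | hne
  · exact ⟨fun _ => 0, fun f hf => absurd hf (Set.notMem_empty f)⟩
  · obtain ⟨u, rfl⟩ := hs.exists_eq_range hne
    refine ⟨fun n => 1 + ∑ k ∈ Finset.range (n + 1), u k n, ?_⟩
    rintro f ⟨k, rfl⟩
    refine ⟨k, fun n hn => ?_⟩
    have : u k n ≤ ∑ k ∈ Finset.range (n + 1), u k n :=
      Finset.single_le_sum (f := fun k => u k n) (fun _ _ => Nat.zero_le _)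
        (Finset.mem_range.mpr (by omega))
    change u k n < 1 + ∑ k ∈ Finset.range (n + 1), u k n
    omega

end Pool.Agent.Lib.Pe29ee7
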